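import Pool.Agent.Helper32_OMP.StmtB

/-!
# Module ACYC: the acyclicity lemma
-/

set_option autoImplicit false
set_option linter.all false

namespace Pool.Agent.Helper32_OMP.H3

open RingTheory.Sequence Pointwise

theorem quot_zero {R M : Type} [CommRing R] [AddCommGroup M] [Module R M] (x : R) (m : M) :
    (Submodule.Quotient.mk m : QuotSMulTop x M) = 0 ↔ ∃ n : M, x • n = m := by
  rw [Submodule.Quotient.mk_eq_zero, Submodule.mem_smul_pointwise_iff_exists]
  constructor
  · rintro ⟨b, _, h⟩; exact ⟨b, h⟩
  · rintro ⟨b, h⟩; exact ⟨b, trivial, h⟩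

/-- a retract of a weakly regular module is weakly regular -/
theorem retract {R : Type} [CommRing R] (rs : List R) : ∀ (M N : Type) [AddCommGroup M]
    [Module R M] [AddCommGroup N] [Module R N] (f : M →ₗ[R] N) (g : N →ₗ[R] M),
    (∀ x, g (f x) = x) → IsWeaklyRegular N rs → IsWeaklyRegular M rs := by
  induction rs with
  | nil =>
    intro M N _ _ _ _ f g hfg h
    exact IsWeaklyRegular.nil R M
  | cons x rs ih =>
    intro M N _ _ _ _ f g hfg h
    rw [isWeaklyRegular_cons_iff] at h ⊢
    refine ⟨?_, ?_⟩
    · intro a b hab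
      have h1 : x • f a = x • f b := by
        rw [← map_smul, ← map_smul]
        exact congrArg f hab
      have h2 : f a = f b := h.1 h1
      rw [← hfg a, ← hfg b, h2]
    · refine ih _ _ (QuotSMulTop.map x f) (QuotSMulTop.map x g) ?_ h.2
      intro y
      obtain ⟨y, rfl⟩ := Submodule.Quotient.mk_surjective _ y
      rw [QuotSMulTop.map_apply_mk, QuotSMulTop.map_apply_mk, hfg]

theorem acyc : AcycStmt := by
  intro R _ rs
  induction rs with
  | nil =>
    intro K _ _ d hd hK hreg hh i x hx
    have h1 : Subsingleton (K (i + 1)) := hK (i + 1) (by simp)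
    exact ⟨0, Subsingleton.elim _ _⟩
  | cons r rs ih =>
    intro K _ _ d hd hK hreg hh i x hx
    have hr : ∀ i, IsSMulRegular (K i) r := fun i => ((isWeaklyRegular_cons_iff _ _ _).1 (hreg i)).1
    -- the quotient complex
    have key : ∀ (i : ℕ) (w : K (i + 2)) (z : K (i + 1)), d (i + 1) w = r • z →
        ∃ (v : K (i + 3)) (w' : K (i + 2)), w = d (i + 2) v + r • w' := by
      intro i w z hw
      have hq := ih (fun i => QuotSMulTop r (K (i + 1))) (fun i => QuotSMulTop.map r (d (i + 1)))
        ?_ ?_ ?_ ?_ i (Submodule.Quotient.mk w) ?_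
      · obtain ⟨y, hy⟩ := hq
        obtain ⟨y, rfl⟩ := Submodule.Quotient.mk_surjective _ y
        rw [QuotSMulTop.map_apply_mk] at hy
        have h2 : (Submodule.Quotient.mk (w - d (i + 2) y) : QuotSMulTop r (K (i + 2))) = 0 := by
          rw [Submodule.Quotient.mk_sub, hy, sub_self]
        obtain ⟨n, hn⟩ := (quot_zero r _).1 h2
        exact ⟨y, n, by rw [hn]; abel⟩
      · intro j y
        obtain ⟨y, rfl⟩ := Submodule.Quotient.mk_surjective _ y
        rw [QuotSMulTop.map_apply_mk, QuotSMulTop.map_apply_mk, hd (j + 1) y]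
        exact Submodule.Quotient.mk_zero _
      · intro j hj
        have h1 : Subsingleton (K (j + 1)) := hK (j + 1) (by rw [List.length_cons]; omega)
        exact Function.Surjective.subsingleton (Submodule.Quotient.mk_surjective _)
      · intro j
        exact ((isWeaklyRegular_cons_iff _ _ _).1 (hreg (j + 1))).2
      · intro j y hy s hs
        obtain ⟨y, rfl⟩ := Submodule.Quotient.mk_surjective _ y
        rw [QuotSMulTop.map_apply_mk] at hy
        obtain ⟨n, hn⟩ := (quot_zero r _).1 hy
        -- d y = r n, so d n = 0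
        have hdn : d j n = 0 := by
          apply hr j
          show r • d j n = r • 0
          rw [← map_smul, hn, hd j y, smul_zero]
        obtain ⟨M, u, hu⟩ := hh j n hdn s (List.mem_cons_of_mem _ hs)
        have hcyc : d (j + 1) (s ^ M • y - r • u) = 0 := by
          rw [map_sub, map_smul, map_smul, ← hn, ← hu, smul_comm, sub_self]
        obtain ⟨M', u', hu'⟩ := hh (j + 1) _ hcyc s (List.mem_cons_of_mem _ hs)
        refine ⟨M' + M, Submodule.Quotient.mk u', ?_⟩
        rw [QuotSMulTop.map_apply_mk, ← hu', ← Submodule.Quotient.mk_smul]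
        have h3 : (Submodule.Quotient.mk (s ^ (M' + M) • y - s ^ M' • (s ^ M • y - r • u)) :
            QuotSMulTop r (K (j + 1 + 1))) = 0 := by
          rw [quot_zero]
          refine ⟨s ^ M' • u, ?_⟩
          rw [smul_sub, pow_add, mul_smul, sub_sub_cancel, smul_comm]
        rw [Submodule.Quotient.mk_sub, sub_eq_zero] at h3
        exact h3
      · rw [QuotSMulTop.map_apply_mk, hw, quot_zero]
        exact ⟨z, rfl⟩
    -- removing the powers of `r`
    have down : ∀ (m : ℕ) (w : K (i + 2)), r ^ m • x = d (i + 1) w → ∃ y, d (i + 1) y = x := by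
      intro m
      induction m with
      | zero =>
        intro w hw
        rw [pow_zero, one_smul] at hw
        exact ⟨w, hw.symm⟩
      | succ m ihm =>
        intro w hw
        have h1 : d (i + 1) w = r • (r ^ m • x) := by
          rw [← hw, pow_succ', mul_smul]
        obtain ⟨v, w', hv⟩ := key i w _ h1
        apply ihm w'
        apply hr (i + 1)
        show r • (r ^ m • x) = r • d (i + 1) w'
        rw [← h1, hv, map_add, hd (i + 1) v, zero_add, map_smul]
    obtain ⟨M, y, hy⟩ := hh i x hx r (by simp)
    exact down M y hy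

end Pool.Agent.Helper32_OMP.H3
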