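import Pool.Agent.Helper3_OMP.Acyc

/-!
# BRG: kernels are generated by the Buchsbaum-Rim relations
-/

set_option autoImplicit false
set_option linter.all false

namespace Pool.Agent.Helper32_OMP.H3

theorem brg (hB : BrghStmt) (hA : AcycStmt) : BrgStmt := by
  intro R _ _ rs hrs hreg κ _ _ r A hr hcard hmin v hv
  obtain ⟨K, _, _, d, e, hdd, hsub, hret, hkill, he, hlast⟩ := hB R κ r A hr
  have h1 := hA R rs K d hdd (fun i hi => hsub i (by omega) (by omega)) (fun i => by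
    obtain ⟨κ', _, f, g, hfg⟩ := hret i
    exact retract rs (K i) (κ' → R) f g hfg (hreg κ')) (fun i x hx r' hr' => by
    let 𝔍 : Ideal R := (LinearMap.range (d (i + 1))).comap (LinearMap.toSpanSingleton R (K (i + 1)) x)
    have h𝔍 : ∀ c, c ∈ 𝔍 ↔ ∃ y, c • x = d (i + 1) y := by
      intro c
      constructor
      · rintro ⟨y, hy⟩
        exact ⟨y, hy.symm⟩
      · rintro ⟨y, hy⟩
        exact ⟨y, hy.symm⟩
    have h2 : Ideal.span (Set.range fun T : Fin r → κ => (Matrix.of fun i j => A i (T j)).det)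
        ≤ 𝔍.radical := by
      rw [Ideal.span_le]
      rintro _ ⟨T, rfl⟩
      obtain ⟨M, y, hy⟩ := hkill T i x hx
      exact ⟨M, (h𝔍 _).2 ⟨y, hy⟩⟩
    obtain ⟨M, hM⟩ := hmin r' hr'
    obtain ⟨M', hM'⟩ := h2 hM
    rw [← pow_mul] at hM'
    exact ⟨_, (h𝔍 _).1 hM'⟩) 0 (e v) (he v hv)
  obtain ⟨y, hy⟩ := h1
  exact hlast v y hy.symm

end Pool.Agent.Helper32_OMP.H3
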