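import Pool.Agent.Helper3_OMP.BrHom

/-!
# BRGH: the Buchsbaum-Rim complex
-/

set_option autoImplicit false
set_option linter.all false

namespace Pool.Agent.Helper32_OMP.H3

open ExteriorAlgebra

theorem retr {R N : Type} [CommRing R] [AddCommGroup N] [Module R N] [Module.Free R N]
    [Module.Finite R N] : ∃ (κ' : Type) (_ : Finite κ') (f : N →ₗ[R] (κ' → R))
      (g : (κ' → R) →ₗ[R] N), ∀ x, g (f x) = x :=
  ⟨Module.Free.ChooseBasisIndex R N, inferInstance,
    ((Module.Free.chooseBasis R N).equivFun : N →ₗ[R] _),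
    ((Module.Free.chooseBasis R N).equivFun.symm : _ →ₗ[R] N), fun x =>
      (Module.Free.chooseBasis R N).equivFun.symm_apply_apply x⟩

theorem ext_subsingleton {R κ : Type} [CommRing R] [Fintype κ] {q : ℕ} (hq : Fintype.card κ < q) :
    Subsingleton ↥(⋀[R]^q (κ → R)) := by
  rcases subsingleton_or_nontrivial R with h | h
  · exact Module.subsingleton R _
  · have h1 := exteriorPower.finrank_eq R (M := κ → R) q
    rw [Module.finrank_fintype_fun_eq_card, Nat.choose_eq_zero_of_lt hq] at h1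
    exact (Module.finrank_eq_zero_iff_of_free R _).1 h1

section br

variable {R : Type} [CommRing R] {κ : Type} [Fintype κ] {r : ℕ}

/-- the linear form with the coefficients `a` -/
def dotL (a : κ → R) : Module.Dual R (κ → R) where
  toFun v := ∑ j, a j * v j
  map_add' v w := by simp only [Pi.add_apply, mul_add, Finset.sum_add_distrib]
  map_smul' c v := by
    simp only [Pi.smul_apply, smul_eq_mul, RingHom.id_apply, Finset.mul_sum]
    exact Finset.sum_congr rfl fun _ _ => by ring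

theorem dotL_apply (a v : κ → R) : dotL a v = ∑ j, a j * v j := rfl

/-- the linear forms -/
def phi (A : Fin r → κ → R) (i : ℕ) : Module.Dual R (κ → R) :=
  if h : i < r then dotL (A ⟨i, h⟩) else 0

theorem phi_coe (A : Fin r → κ → R) (i : Fin r) : phi A i = dotL (A i) := by
  rw [phi, dif_pos i.2]

/-- the modules of the complex -/
def KT (R κ : Type) [CommRing R] (r : ℕ) : ℕ → Type
  | 0 => Fin r → R
  | 1 => κ → R
  | i + 2 => ↥(Kq R (κ → R) r i)

noncomputable instance KTa : ∀ i, AddCommGroup (KT R κ r i)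
  | 0 => inferInstanceAs (AddCommGroup (Fin r → R))
  | 1 => inferInstanceAs (AddCommGroup (κ → R))
  | i + 2 => inferInstanceAs (AddCommGroup ↥(Kq R (κ → R) r i))

noncomputable instance KTm : ∀ i, Module R (KT R κ r i)
  | 0 => inferInstanceAs (Module R (Fin r → R))
  | 1 => inferInstanceAs (Module R (κ → R))
  | i + 2 => inferInstanceAs (Module R ↥(Kq R (κ → R) r i))

/-- the first differential -/
noncomputable def d0 (A : Fin r → κ → R) : (κ → R) →ₗ[R] (Fin r → R) :=
  LinearMap.pi fun i : Fin r => phi A i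

/-- the second differential -/
noncomputable def d1 (A : Fin r → κ → R) : ↥(Kq R (κ → R) r 0) →ₗ[R] (κ → R) :=
  ιInv ∘ₗ Jn (phi A) r ∘ₗ LinearMap.proj (0 : Fin r → ℕ) ∘ₗ Submodule.subtype _

/-- the other differentials -/
noncomputable def d2 (A : Fin r → κ → R) (i : ℕ) :
    ↥(Kq R (κ → R) r (i + 1)) →ₗ[R] ↥(Kq R (κ → R) r i) :=
  (Dop (phi A) r).restrict fun w hw => Dop_mem (phi A) r hw

noncomputable def dT (A : Fin r → κ → R) : ∀ i, KT R κ r (i + 1) →ₗ[R] KT R κ r i
  | 0 => d0 A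
  | 1 => d1 A
  | i + 2 => d2 A i

theorem d1_ι (A : Fin r → κ → R) (w : ↥(Kq R (κ → R) r 0)) :
    ι R (d1 A w) = Jn (phi A) r (w.1 0) := by
  have h1 : Jn (phi A) r (w.1 0) ∈ ⋀[R]^1 (κ → R) := Jn_mem _ _ _ _ (w.2.1 0)
  have h2 : Jn (phi A) r (w.1 0) ∈ LinearMap.range (ι R : (κ → R) →ₗ[R] _) := by
    have : (LinearMap.range (ι R : (κ → R) →ₗ[R] _)) ^ 1
      = LinearMap.range (ι R : (κ → R) →ₗ[R] _) := pow_one _
    rw [← this]; exact h1
  obtain ⟨v, hv⟩ := h2
  show ι R (ιInv (Jn (phi A) r (w.1 0))) = _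
  rw [← hv, ι_leftInverse]

theorem algMap_inj {M : Type} [AddCommGroup M] [Module R M] {c c' : R}
    (h : algebraMap R (ExteriorAlgebra R M) c = algebraMap R _ c') : c = c' :=
  (ExteriorAlgebra.algebraMap_leftInverse (R := R) M).injective h

theorem phi_d1 (A : Fin r → κ → R) (w : ↥(Kq R (κ → R) r 0)) : d0 A (d1 A w) = 0 := by
  funext i
  show phi A i (d1 A w) = 0
  refine algMap_inj (M := κ → R) ?_
  rw [map_zero, ← ct_ι, d1_ι]
  exact ct_Jn_self _ _ _ _ i.2

theorem d1_d2 (A : Fin r → κ → R) (w : ↥(Kq R (κ → R) r 1)) : d1 A (d2 A 0 w) = 0 := by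
  show ιInv (Jn (phi A) r (Dop (phi A) r w.1 0)) = 0
  have : Jn (phi A) r (Dop (phi A) r w.1 0) = 0 := by
    rw [Dop_apply, map_sum]
    exact Finset.sum_eq_zero fun i _ => Jn_ct_self _ _ _ _ i.2
  rw [this, map_zero]

theorem dT_dT [Algebra ℚ R] (A : Fin r → κ → R) : ∀ (i : ℕ) (x : KT R κ r (i + 1 + 1)),
    dT A i (dT A (i + 1) x) = 0
  | 0, x => phi_d1 A x
  | 1, x => d1_d2 A x
  | i + 2, x => Subtype.ext (Dop_Dop (phi A) r (Subtype.val (p := fun x => x ∈ Kq R (κ → R) r (i + 2)) x))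

noncomputable def toE (R κ : Type) [CommRing R] (r i : ℕ) : ↥(Kq R (κ → R) r i) →ₗ[R]
    ({α : Fin r → ℕ // ∑ j, α j = i} → ↥(⋀[R]^(r + i + 1) (κ → R))) where
  toFun w α := ⟨w.1 α.1, w.2.1 α.1⟩
  map_add' w w' := rfl
  map_smul' c w := rfl

open scoped Classical in
noncomputable def frE (R κ : Type) [CommRing R] (r i : ℕ) :
    ({α : Fin r → ℕ // ∑ j, α j = i} → ↥(⋀[R]^(r + i + 1) (κ → R))) →ₗ[R] ↥(Kq R (κ → R) r i) where
  toFun w := ⟨fun α => if h : ∑ j, α j = i then (w ⟨α, h⟩).1 else 0, fun α => by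
    show dite _ _ _ ∈ _
    split_ifs with h
    · exact (w ⟨α, h⟩).2
    · exact Submodule.zero_mem _, fun α hα => dif_neg hα⟩
  map_add' w w' := by
    refine Subtype.ext (funext fun α => ?_)
    rw [Submodule.coe_add, Pi.add_apply]
    dsimp only
    by_cases h : ∑ j, α j = i
    · rw [dif_pos h, dif_pos h, dif_pos h]; rfl
    · rw [dif_neg h, dif_neg h, dif_neg h, add_zero]
  map_smul' c w := by
    refine Subtype.ext (funext fun α => ?_)
    rw [Submodule.coe_smul, Pi.smul_apply, RingHom.id_apply]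
    dsimp only
    by_cases h : ∑ j, α j = i
    · rw [dif_pos h, dif_pos h]; rfl
    · rw [dif_neg h, dif_neg h, smul_zero]

theorem frE_toE (i : ℕ) (w : ↥(Kq R (κ → R) r i)) : frE R κ r i (toE R κ r i w) = w := by
  classical
  refine Subtype.ext (funext fun α => ?_)
  show dite _ _ _ = _
  by_cases h : ∑ j, α j = i
  · rw [dif_pos h]; rfl
  · rw [dif_neg h, w.2.2 α h]

instance fin_deg (i : ℕ) : Finite {α : Fin r → ℕ // ∑ j, α j = i} := by
  refine Finite.of_injective (β := Fin r → Fin (i + 1))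
    (fun α j => ⟨α.1 j, Nat.lt_succ_of_le
      ((Finset.single_le_sum (f := α.1) (fun _ _ => Nat.zero_le _) (Finset.mem_univ j)).trans
        α.2.le)⟩)
    fun α β h => Subtype.ext (funext fun j => ?_)
  exact congrArg Fin.val (congrFun h j)

theorem KT_retr : ∀ i, ∃ (κ' : Type) (_ : Finite κ') (f : KT R κ r i →ₗ[R] (κ' → R))
    (g : (κ' → R) →ₗ[R] KT R κ r i), ∀ x, g (f x) = x
  | 0 => ⟨Fin r, inferInstance, (LinearMap.id : (Fin r → R) →ₗ[R] (Fin r → R)),
      (LinearMap.id : (Fin r → R) →ₗ[R] (Fin r → R)), fun x => rfl⟩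
  | 1 => ⟨κ, inferInstance, (LinearMap.id : (κ → R) →ₗ[R] (κ → R)),
      (LinearMap.id : (κ → R) →ₗ[R] (κ → R)), fun x => rfl⟩
  | i + 2 => by
    obtain ⟨κ', h, f, g, hfg⟩ := retr (R := R)
      (N := {α : Fin r → ℕ // ∑ j, α j = i} → ↥(⋀[R]^(r + i + 1) (κ → R)))
    exact ⟨κ', h, (f ∘ₗ toE R κ r i : ↥(Kq R (κ → R) r i) →ₗ[R] _),
      (frE R κ r i ∘ₗ g : _ →ₗ[R] ↥(Kq R (κ → R) r i)), fun (x : ↥(Kq R (κ → R) r i)) => by
        show frE R κ r i (g (f (toE R κ r i x))) = x
        rw [hfg, frE_toE]⟩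

theorem KT_sub (i : ℕ) (h2 : 2 ≤ i) (h : Fintype.card κ + 1 < i + r) :
    Subsingleton (KT R κ r i) := by
  obtain ⟨j, rfl⟩ := Nat.exists_eq_add_of_le' h2
  have h3 : Subsingleton ↥(⋀[R]^(r + j + 1) (κ → R)) := ext_subsingleton (by omega)
  refine ⟨fun (x y : ↥(Kq R (κ → R) r j)) => ?_⟩
  rw [← frE_toE j x, ← frE_toE j y]
  congr 1
  exact Subsingleton.elim _ _

variable [DecidableEq κ]

/-- the span of the Buchsbaum-Rim relations -/
def brL (A : Fin r → κ → R) : ((Fin (r + 1) → κ) → R) →ₗ[R] (κ → R) where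
  toFun cf j := ∑ S, cf S * (brM A S (Pi.single j 1)).det
  map_add' a b := by
    funext j
    simp only [Pi.add_apply, add_mul, Finset.sum_add_distrib]
  map_smul' c a := by
    funext j
    simp only [Pi.smul_apply, smul_eq_mul, RingHom.id_apply, Finset.mul_sum]
    exact Finset.sum_congr rfl fun _ _ => by ring

/-- the linear forms with a coordinate in front -/
def psi (A : Fin r → κ → R) (j : κ) : ℕ → Module.Dual R (κ → R)
  | 0 => LinearMap.proj j
  | i + 1 => phi A i

theorem dotL_single (a : κ → R) (s : κ) : dotL a (Pi.single s 1) = a s := by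
  rw [dotL_apply, Finset.sum_eq_single s]
  · rw [Pi.single_eq_same, mul_one]
  · intro b _ hb
    rw [Pi.single_eq_of_ne hb, mul_zero]
  · intro h
    exact absurd (Finset.mem_univ _) h

theorem pi_expand (v : κ → R) : v = ∑ s : κ, v s • (Pi.single s 1 : κ → R) := by
  funext j
  rw [Finset.sum_apply, Finset.sum_eq_single j]
  · rw [Pi.smul_apply, Pi.single_eq_same, smul_eq_mul, mul_one]
  · intro b _ hb
    rw [Pi.smul_apply, Pi.single_eq_of_ne (Ne.symm hb), smul_zero]
  · intro h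
    exact absurd (Finset.mem_univ _) h

theorem det_expand (A : Fin r → κ → R) (j : κ) (m : Fin (r + 1) → κ → R) :
    (Matrix.of fun i k : Fin (r + 1) => psi A j i (m k)).det
      = ∑ S : Fin (r + 1) → κ, (∏ k, m k (S k)) * (brM A S (Pi.single j 1)).det := by
  rw [← Matrix.det_transpose]
  have h1 : (Matrix.of fun i k : Fin (r + 1) => psi A j i (m k)).transpose
      = fun k => ∑ s : κ, m k s • (fun i : Fin (r + 1) => psi A j i (Pi.single s 1)) := by
    funext k i
    rw [Finset.sum_apply]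
    show psi A j i (m k) = ∑ s, m k s * psi A j i (Pi.single s 1)
    conv_lhs => rw [pi_expand (m k)]
    rw [map_sum]
    refine Finset.sum_congr rfl fun s _ => ?_
    rw [map_smul, smul_eq_mul]
  have h2 := (Matrix.detRowAlternating (n := Fin (r + 1)) (R := R)).toMultilinearMap.map_sum
    (fun k (s : κ) => m k s • (fun i : Fin (r + 1) => psi A j i (Pi.single s 1)))
  rw [h1]
  refine h2.trans ?_
  refine Finset.sum_congr rfl fun S _ => ?_
  rw [MultilinearMap.map_smul_univ, smul_eq_mul]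
  congr 1
  show Matrix.det (fun k i : Fin (r + 1) => psi A j i (Pi.single (S k) 1)) = _
  rw [← Matrix.det_transpose]
  congr 1
  funext i k
  show psi A j i (Pi.single (S k) 1) = brM A S (Pi.single j 1) i k
  refine Fin.cases ?_ (fun i => ?_) i
  · show (Pi.single (S k) 1 : κ → R) j = (Pi.single j 1 : κ → R) (S k)
    rw [Pi.single_apply, Pi.single_apply]
    simp only [eq_comm]
  · show phi A i (Pi.single (S k) 1) = A i (S k)
    rw [phi_coe, dotL_single]

theorem last (A : Fin r → κ → R) (w : ↥(Kq R (κ → R) r 0)) : ∃ cf, d1 A w = brL A cf := by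
  have h1 : w.1 0 ∈ Submodule.span R (Set.range (ιMulti R (r + 1) (M := κ → R))) := by
    rw [ExteriorAlgebra.ιMulti_span_fixedDegree]
    exact w.2.1 0
  have h2 : ∀ z ∈ Submodule.span R (Set.range (ιMulti R (r + 1) (M := κ → R))),
      ιInv (Jn (phi A) r z) ∈ LinearMap.range (brL A) := by
    intro z hz
    induction hz using Submodule.span_induction with
    | mem z hz =>
      obtain ⟨m, rfl⟩ := hz
      have h3 : Jn (phi A) r (ιMulti R (r + 1) m) ∈ ⋀[R]^1 (κ → R) := Jn_mem _ _ _ _ (by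
        rw [← ExteriorAlgebra.ιMulti_span_fixedDegree]
        exact Submodule.subset_span ⟨m, rfl⟩)
      have h2 : Jn (phi A) r (ιMulti R (r + 1) m) ∈ LinearMap.range (ι R : (κ → R) →ₗ[R] _) := by
        have : (LinearMap.range (ι R : (κ → R) →ₗ[R] _)) ^ 1
          = LinearMap.range (ι R : (κ → R) →ₗ[R] _) := pow_one _
        rw [← this]; exact h3
      obtain ⟨v, hv⟩ := h2
      rw [← hv, ι_leftInverse]
      refine ⟨fun S => (-1) ^ r * ∏ k, m k (S k), ?_⟩
      funext j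
      show ∑ S, (-1) ^ r * (∏ k, m k (S k)) * (brM A S (Pi.single j 1)).det = v j
      refine algMap_inj (M := κ → R) ?_
      have h4 : algebraMap R (ExteriorAlgebra R (κ → R)) (v j)
          = ct (LinearMap.proj j : (κ → R) →ₗ[R] R) (ι R v) := by
        rw [ct_ι]; rfl
      have h5 := Jn_succ' (psi A j) r (ιMulti R (r + 1) m)
      have h6 : (fun i => psi A j (i + 1)) = phi A := rfl
      rw [h6, Jn_ιMulti, det_expand] at h5
      rw [h4, hv, Jn_ct]
      show _ = (-1 : R) ^ r • Jn (phi A) r (ct (psi A j 0) _)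
      rw [← h5, Algebra.smul_def, ← (algebraMap R (ExteriorAlgebra R (κ → R))).map_mul,
        Finset.mul_sum]
      congr 1
      exact Finset.sum_congr rfl fun _ _ => by ring
    | zero => rw [map_zero, map_zero]; exact Submodule.zero_mem _
    | add x y _ _ hx hy => rw [map_add, map_add]; exact Submodule.add_mem _ hx hy
    | smul c x _ hx => rw [map_smul, map_smul]; exact Submodule.smul_mem _ _ hx
  obtain ⟨cf, hcf⟩ := h2 _ h1
  exact ⟨cf, hcf.symm⟩

/-- the vectors given by the adjugate of a maximal minor -/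
noncomputable def uT (A : Fin r → κ → R) (T : Fin r → κ) (l : ℕ) : κ → R :=
  if h : l < r then ∑ j, (Matrix.of fun i j => A i (T j)).adjugate j ⟨l, h⟩ •
    (Pi.single (T j) 1 : κ → R) else 0

theorem phi_uT (A : Fin r → κ → R) (T : Fin r → κ) : ∀ i < r, ∀ l < r,
    phi A i (uT A T l) = if i = l then (Matrix.of fun i j => A i (T j)).det else 0 := by
  intro i hi l hl
  rw [uT, dif_pos hl, phi, dif_pos hi, map_sum]
  have h1 := congrFun (congrFun (Matrix.mul_adjugate (Matrix.of fun i j => A i (T j))) ⟨i, hi⟩)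
    ⟨l, hl⟩
  rw [Matrix.mul_apply, Matrix.smul_apply, Matrix.one_apply] at h1
  have h2 : ∀ j : Fin r, dotL (A ⟨i, hi⟩) ((Matrix.of fun i j => A i (T j)).adjugate j ⟨l, hl⟩ •
      (Pi.single (T j) 1 : κ → R)) = (Matrix.of fun i j => A i (T j)) ⟨i, hi⟩ j *
        (Matrix.of fun i j => A i (T j)).adjugate j ⟨l, hl⟩ := by
    intro j
    rw [map_smul, dotL_single, smul_eq_mul, mul_comm]
    rfl
  rw [Finset.sum_congr rfl fun j _ => h2 j, h1]
  by_cases h : i = l
  · subst h
    rw [if_pos rfl, if_pos rfl, smul_eq_mul, mul_one]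
  · rw [if_neg h, if_neg (fun h' => h (Fin.mk.inj_iff.1 h')), smul_zero]

theorem kill0 (A : Fin r → κ → R) (T : Fin r → κ) (v : κ → R) (hv : d0 A v = 0) :
    ∃ y : ↥(Kq R (κ → R) r 0), (Matrix.of fun i j => A i (T j)).det ^ r • v = d1 A y := by
  obtain ⟨c, hc, h1⟩ := Jn_Vop (phi_uT A T) r le_rfl
  have hv' : ∀ i < r, ct (phi A i) (ι R v) = 0 := by
    intro i hi
    rw [ct_ι]
    have : phi A i v = 0 := congrFun hv ⟨i, hi⟩
    rw [this, map_zero]
  have h2 := h1 (ι R v) hv'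
  classical
  refine ⟨⟨fun α => if α = 0 then c • Vop (R := R) (uT A T) r (ι R v) else 0, fun α => ?_,
    fun α hα => ?_⟩, ?_⟩
  · show ite _ _ _ ∈ _
    split_ifs
    · refine Submodule.smul_mem _ _ (Vop_mem _ _ _ _ ?_)
      have : (LinearMap.range (ι R : (κ → R) →ₗ[R] _)) ^ 1
        = LinearMap.range (ι R : (κ → R) →ₗ[R] _) := pow_one _
      show _ ∈ (LinearMap.range (ι R : (κ → R) →ₗ[R] _)) ^ 1
      rw [this]
      exact LinearMap.mem_range_self _ v
    · exact Submodule.zero_mem _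
  · refine if_neg ?_
    rintro rfl
    simp at hα
  · show _ = ιInv (Jn (phi A) r (if (0 : Fin r → ℕ) = 0 then _ else _))
    rw [if_pos rfl, map_smul, h2, smul_smul, ← mul_assoc, hc, one_mul, map_smul, ι_leftInverse]

theorem kill1 [Algebra ℚ R] (A : Fin r → κ → R) (T : Fin r → κ) (w : ↥(Kq R (κ → R) r 0))
    (hw : d1 A w = 0) :
    ∃ y : ↥(Kq R (κ → R) r 1), (Matrix.of fun i j => A i (T j)).det ^ r • w = d2 A 0 y := by
  have h0 : Jn (phi A) r (w.1 0) = 0 := by rw [← d1_ι, hw, map_zero]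
  have h1 : Dop (phi A) r w.1 = 0 := by
    funext α
    rw [Dop_apply]
    refine Finset.sum_eq_zero fun j _ => ?_
    rw [w.2.2 _ (by rw [sum_single]; omega), map_zero]
  have h3 : ∀ α, FF (dl (Matrix.of fun i j => A i (T j)).det) r (Pop (phi A) (uT A T) r) (w.1 α) = 0 := by
    intro α
    obtain ⟨c, hc⟩ := FF_Pop_eq (phi_uT A T) r le_rfl
    rw [hc]
    by_cases hα : ∑ j, α j = 0
    · have : α = 0 := by
        funext j
        exact (Finset.sum_eq_zero_iff.1 hα) j (Finset.mem_univ j)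
      rw [this, h0, map_zero, smul_zero]
    · rw [w.2.2 α hα, map_zero, map_zero, smul_zero]
  obtain ⟨y, hy, h4⟩ := kill (phi_uT A T) 0 w.1 w.2 h1 r (by omega) h3
  exact ⟨⟨y, hy⟩, Subtype.ext h4⟩

theorem kill2 [Algebra ℚ R] (A : Fin r → κ → R) (T : Fin r → κ) (i : ℕ)
    (w : ↥(Kq R (κ → R) r (i + 1))) (hw : d2 A i w = 0) :
    ∃ y : ↥(Kq R (κ → R) r (i + 2)), (Matrix.of fun i j => A i (T j)).det ^ (r + 1) • w
      = d2 A (i + 1) y := by
  have h1 : Dop (phi A) r w.1 = 0 := congrArg Subtype.val hw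
  have h3 : ∀ α, FF (dl (Matrix.of fun i j => A i (T j)).det) (r + 1)
      (Pop (phi A) (uT A T) r) (w.1 α) = 0 := by
    intro α
    rw [FF_Pop (phi_uT A T) r le_rfl]
    rfl
  obtain ⟨y, hy, h4⟩ := kill (phi_uT A T) (i + 1) w.1 w.2 h1 (r + 1) (by omega) h3
  exact ⟨⟨y, hy⟩, Subtype.ext h4⟩

theorem kT [Algebra ℚ R] (A : Fin r → κ → R) (T : Fin r → κ) : ∀ (i : ℕ) (x : KT R κ r (i + 1)),
    dT A i x = 0 → ∃ (M : ℕ) (y : KT R κ r (i + 2)),
      (Matrix.of fun i j => A i (T j)).det ^ M • x = dT A (i + 1) y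
  | 0, x, hx => ⟨r, kill0 A T x hx⟩
  | 1, x, hx => ⟨r, kill1 A T x hx⟩
  | i + 2, x, hx => ⟨r + 1, kill2 A T i x hx⟩

end br

theorem brgh : BrghStmt := by
  intro R _ _ κ _ _ r A hr
  refine ⟨KT R κ r, KTa, KTm, dT A, (LinearMap.id : (κ → R) →ₗ[R] (κ → R)), dT_dT A, KT_sub,
    KT_retr, kT A, fun v hv => ?_, fun v y hy => ?_⟩
  · show d0 A v = 0
    funext i
    show phi A i v = 0
    rw [phi_coe, dotL_apply]
    exact hv i
  · obtain ⟨cf, hcf⟩ := last A y
    refine ⟨cf, fun j => ?_⟩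
    have h1 : v = brL A cf := by
      rw [← hcf]; exact hy
    exact congrFun h1 j

end Pool.Agent.Helper32_OMP.H3
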