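import Pool.Agent.Helper32_OMP.Stmts
import Pool.Agent.Helper32_OMP.StmtB
import Mathlib.RingTheory.MvPolynomial.EulerIdentity

/-!
# LGEN: generators of the logarithmic vector fields
-/

set_option autoImplicit false
set_option linter.all false

namespace Pool.Agent.Helper32_OMP.H3

open MvPolynomial

section lgen

variable {σ : Type} [Fintype σ] {r : ℕ} {g : Fin (r + 1) → MvPolynomial σ ℂ} {d : Fin (r + 1) → ℕ}

theorem euler {p : MvPolynomial σ ℂ} {n : ℕ} (h : p.IsHomogeneous n) (z : σ → ℂ) :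
    ∑ l, z l * eval z (pderiv l p) = n * eval z p := by
  have h1 := congrArg (eval z) h.sum_X_mul_pderiv
  simp only [map_sum, map_mul, eval_X] at h1
  rw [h1, nsmul_eq_mul, map_mul, map_natCast]

theorem rows_ind (hg : IsOrd g d) (z : σ → ℂ) (hz : z ≠ 0) :
    LinearIndependent ℂ (fun i : Fin (r + 1) => fun j : σ ⊕ Fin r => eval z (rowsA g i j)) := by
  classical
  rw [Fintype.linearIndependent_iff]
  intro c hc
  have h1 : ∀ l : σ, ∑ i, c i * eval z (pderiv l (g i)) = 0 := by
    intro l
    have h2 := congrFun hc (Sum.inl l)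
    rw [Finset.sum_apply] at h2
    exact h2
  have h3 : ∀ j : Fin r, c j.succ * eval z (g j.succ) = 0 := by
    intro j
    have h2 := congrFun hc (Sum.inr j)
    rw [Finset.sum_apply, Finset.sum_eq_single j.succ] at h2
    · have h4 : c j.succ * eval z (rowsA g j.succ (Sum.inr j)) = 0 := h2
      rw [rowsA, Sum.elim_inr, if_pos rfl, map_neg, mul_neg, neg_eq_zero] at h4
      exact h4
    · intro b _ hb
      show c b * eval z (rowsA g b (Sum.inr j)) = 0
      rw [rowsA, Sum.elim_inr, if_neg hb, map_zero, mul_zero]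
    · intro h
      exact absurd (Finset.mem_univ _) h
  have h4 : c 0 * eval z (g 0) = 0 := by
    have h5 : ∑ i, c i * (d i * eval z (g i)) = 0 := by
      have h6 : ∀ i, c i * (d i * eval z (g i)) = ∑ l, z l * (c i * eval z (pderiv l (g i))) := by
        intro i
        rw [← euler (hg.hom i) z, Finset.mul_sum]
        exact Finset.sum_congr rfl fun _ _ => by ring
      rw [Finset.sum_congr rfl fun i _ => h6 i, Finset.sum_comm]
      refine Finset.sum_eq_zero fun l _ => ?_
      rw [← Finset.mul_sum, h1 l, mul_zero]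
    rw [Fin.sum_univ_succ, Finset.sum_eq_zero (s := Finset.univ), add_zero] at h5
    · have hd : (d 0 : ℂ) ≠ 0 := by exact_mod_cast (hg.pos 0).ne'
      have h6 : (d 0 : ℂ) * (c 0 * eval z (g 0)) = 0 := by rw [← h5]; ring
      exact (mul_eq_zero.1 h6).resolve_left hd
    · intro j _
      have : c j.succ * (d j.succ * eval z (g j.succ))
        = d j.succ * (c j.succ * eval z (g j.succ)) := by ring
      rw [this, h3 j, mul_zero]
  have h5 : ∀ i, c i * eval z (g i) = 0 := by
    intro i
    refine Fin.cases h4 h3 i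
  have h6 : ∀ i, eval z (g i) ≠ 0 → c i = 0 := fun i hi => (mul_eq_zero.1 (h5 i)).resolve_right hi
  have h7 := hg.snc z hz
  rw [SncAt, Fintype.linearIndependent_iff] at h7
  have h8 := h7 (fun i => c i.1) (by
    funext l
    rw [Finset.sum_apply]
    have h10 := Finset.sum_subtype (p := fun i => eval z (g i) = 0) (F := inferInstance)
      (Finset.univ.filter fun i => eval z (g i) = 0) (by simp)
      (fun i => c i * eval z (pderiv l (g i)))
    refine h10.symm.trans ?_
    rw [Finset.sum_filter_of_ne, h1 l]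
    · rfl
    · intro i _ hi
      by_contra h11
      exact hi (by rw [h6 i h11, zero_mul]))
  intro i
  by_cases hi : eval z (g i) = 0
  · exact h8 ⟨i, hi⟩
  · exact h6 i hi

end lgen

theorem lgen (hB : BrgStmt) (hR : RegxStmt) (hN : NulStmt) (hM : MinorStmt) : LgenStmt := by
  classical
  intro σ _ r g d hg H hH
  rcases isEmpty_or_nonempty σ with hσ | hσ
  · exact ⟨0, 0, fun l => (hσ.false l).elim⟩
  obtain ⟨rs, hlen, hX, hreg⟩ := hR σ
  have hcard : 0 < Fintype.card σ := Fintype.card_pos
  choose ψ hψ using hH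
  have hd : (d 0 : ℂ) ≠ 0 := by exact_mod_cast (hg.pos 0).ne'
  set φ : MvPolynomial σ ℂ := C (1 / (d 0 : ℂ)) * ψ 0 with hφ
  have hφ0 : φ * (d 0 : MvPolynomial σ ℂ) = ψ 0 := by
    have : (d 0 : MvPolynomial σ ℂ) = C (d 0 : ℂ) := by rw [map_natCast]
    rw [hφ, this, mul_right_comm, ← C_mul, one_div, inv_mul_cancel₀ hd, C_1, one_mul]
  set v : σ ⊕ Fin r → MvPolynomial σ ℂ := Sum.elim (fun l => H l - φ * X l)
    (fun j => ψ j.succ - φ * (d j.succ : MvPolynomial σ ℂ)) with hv
  have hap : ∀ i, ∑ l, pderiv l (g i) * (H l - φ * X l)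
      = g i * (ψ i - φ * (d i : MvPolynomial σ ℂ)) := by
    intro i
    have e1 := (hg.hom i).sum_X_mul_pderiv
    have e2 := hψ i
    rw [ap] at e2
    have e3 : ∑ l, pderiv l (g i) * (H l - φ * X l)
        = ∑ l, H l * pderiv l (g i) - φ * ∑ l, X l * pderiv l (g i) := by
      rw [Finset.mul_sum, ← Finset.sum_sub_distrib]
      exact Finset.sum_congr rfl fun _ _ => by ring
    rw [e3, e2, e1, nsmul_eq_mul]
    ring
  have h1 := hB (MvPolynomial σ ℂ) rs (by omega) hreg (σ ⊕ Fin r) (r + 1) (rowsA g)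
    (Nat.succ_pos r) (by
      rw [Fintype.card_sum, Fintype.card_fin, hlen]
      omega) ?_ v ?_
  · obtain ⟨cf, hcf⟩ := h1
    refine ⟨φ, cf, fun l => ?_⟩
    have h2 := hcf (Sum.inl l)
    rw [hv, Sum.elim_inl] at h2
    rw [← h2]
    ring
  · intro x hx
    obtain ⟨l, rfl⟩ := hX x hx
    refine hN ℂ σ _ _ fun z hz => ?_
    rw [aeval_X]
    by_contra hzl
    have hz0 : z ≠ 0 := fun h => hzl (by rw [h]; rfl)
    obtain ⟨τ, hτ⟩ := hM ℂ (σ ⊕ Fin r) (Fin (r + 1)) _ (rows_ind hg z hz0)
    apply hτ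
    have h3 := hz _ ⟨τ, rfl⟩
    have h4 : ∀ p : MvPolynomial σ ℂ, aeval z p = eval z p := fun p => by
      rw [← coe_aeval_eq_eval]; rfl
    rw [h4, RingHom.map_det] at h3
    have h5 : (fun a b => Classical.propDecidable (a = b) : DecidableEq (Fin (r + 1)))
      = instDecidableEqFin (r + 1) := Subsingleton.elim _ _
    rw [h5]
    exact h3
  · intro i
    rw [Fintype.sum_sum_type]
    refine Fin.cases ?_ (fun i => ?_) i
    · have h4 : ∀ j : Fin r, rowsA g 0 (Sum.inr j) * v (Sum.inr j) = 0 := by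
        intro j
        rw [rowsA, Sum.elim_inr, if_neg (Fin.succ_ne_zero j).symm, zero_mul]
      rw [Finset.sum_congr rfl fun j _ => h4 j, Finset.sum_const_zero, add_zero]
      refine (hap 0).trans ?_
      rw [hφ0, sub_self, mul_zero]
    · have h4 : ∀ j : Fin r, rowsA g i.succ (Sum.inr j) * v (Sum.inr j)
          = if i = j then -(g i.succ * (ψ i.succ - φ * (d i.succ : MvPolynomial σ ℂ))) else 0 := by
        intro j
        rw [rowsA, Sum.elim_inr]
        by_cases hij : i = j
        · subst hij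
          rw [if_pos rfl, if_pos rfl, hv, Sum.elim_inr, neg_mul]
        · rw [if_neg hij, if_neg (fun h => hij (Fin.succ_injective _ h)), zero_mul]
      rw [Finset.sum_congr rfl fun j _ => h4 j, Finset.sum_ite_eq, if_pos (Finset.mem_univ _)]
      have h5 := hap i.succ
      have h6 : ∑ l, rowsA g i.succ (Sum.inl l) * v (Sum.inl l)
        = ∑ l, pderiv l (g i.succ) * (H l - φ * X l) := rfl
      rw [h6, h5, add_neg_cancel]

end Pool.Agent.Helper32_OMP.H3
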