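import Pool.Agent.Helper32_OMP.Stmts

/-!
# Module MINOR: independent rows have a nonzero minor
-/

set_option autoImplicit false
set_option linter.all false

namespace Pool.Agent.Helper32_OMP.H3

theorem minor : MinorStmt := by
  classical
  intro K _ σ ι _ _ v hv
  haveI := Fintype.ofFinite σ
  set A : Matrix ι σ K := Matrix.of v with hA
  have h1 : A.rank = Fintype.card ι := LinearIndependent.rank_matrix (M := A) hv
  rw [Matrix.rank_eq_finrank_span_cols] at h1
  obtain ⟨κ, a, ha, hspan, hli⟩ := exists_linearIndependent' K A.col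
  haveI : Finite κ := Finite.of_injective a ha
  haveI := Fintype.ofFinite κ
  have h2 : Fintype.card κ = Fintype.card ι := by
    rw [← h1, ← hspan, finrank_span_eq_card hli]
  obtain ⟨e⟩ : Nonempty (ι ≃ κ) := Fintype.card_eq.1 h2.symm
  refine ⟨⟨fun i => a (e i), fun i j h => e.injective (ha h)⟩, ?_⟩
  have h3 : LinearIndependent K (fun i => A.col (a (e i))) := hli.comp e e.injective
  have h4 : IsUnit (Matrix.of fun i i' : ι => v i (a (e i'))) :=
    Matrix.linearIndependent_cols_iff_isUnit.1 h3
  have h5 := (Matrix.isUnit_iff_isUnit_det _).1 h4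
  exact h5.ne_zero

end Pool.Agent.Helper32_OMP.H3
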