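import Pool.Agent.Helper32_OMP.StmtB
import Mathlib.LinearAlgebra.CliffordAlgebra.Contraction
import Mathlib.LinearAlgebra.ExteriorPower.Basis

/-!
# BRGH, part 1: contractions on the exterior algebra
-/

set_option autoImplicit false
set_option linter.all false

namespace Pool.Agent.Helper32_OMP.H3

open ExteriorAlgebra

section ext

variable {R : Type} [CommRing R] {M : Type} [AddCommGroup M] [Module R M]

/-- contraction -/
noncomputable def ct (ψ : Module.Dual R M) : ExteriorAlgebra R M →ₗ[R] ExteriorAlgebra R M :=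
  CliffordAlgebra.contractLeft (Q := (0 : QuadraticForm R M)) ψ

theorem ct_mul (ψ : Module.Dual R M) (v : M) (x : ExteriorAlgebra R M) :
    ct ψ (ι R v * x) = ψ v • x - ι R v * ct ψ x :=
  CliffordAlgebra.contractLeft_ι_mul (Q := (0 : QuadraticForm R M)) (d := ψ) v x

theorem ct_comm (ψ ψ' : Module.Dual R M) (x : ExteriorAlgebra R M) :
    ct ψ (ct ψ' x) = -ct ψ' (ct ψ x) :=
  CliffordAlgebra.contractLeft_comm (Q := (0 : QuadraticForm R M)) (d := ψ) (d' := ψ') x

theorem ct_ct (ψ : Module.Dual R M) (x : ExteriorAlgebra R M) : ct ψ (ct ψ x) = 0 :=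
  CliffordAlgebra.contractLeft_contractLeft (Q := (0 : QuadraticForm R M)) (d := ψ) x

theorem ct_one (ψ : Module.Dual R M) : ct ψ (1 : ExteriorAlgebra R M) = 0 :=
  CliffordAlgebra.contractLeft_one (Q := (0 : QuadraticForm R M)) (d := ψ)

theorem ct_algebraMap (ψ : Module.Dual R M) (c : R) :
    ct ψ (algebraMap R (ExteriorAlgebra R M) c) = 0 :=
  CliffordAlgebra.contractLeft_algebraMap (Q := (0 : QuadraticForm R M)) (d := ψ) c

theorem ct_ι (ψ : Module.Dual R M) (v : M) : ct ψ (ι R v) = algebraMap R _ (ψ v) :=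
  CliffordAlgebra.contractLeft_ι (Q := (0 : QuadraticForm R M)) (d := ψ) v

theorem ι_mul_ι (v w : M) : ι R v * ι R w = -(ι R w * ι R v) :=
  eq_neg_of_add_eq_zero_left (ExteriorAlgebra.ι_add_mul_swap v w)

theorem ct_ι_mul_add (ψ : Module.Dual R M) (v : M) (x : ExteriorAlgebra R M) :
    ct ψ (ι R v * x) + ι R v * ct ψ x = ψ v • x := by
  rw [ct_mul, sub_add_cancel]

theorem mul_mem {n : ℕ} (v : M) {x : ExteriorAlgebra R M} (hx : x ∈ ⋀[R]^n M) :
    ι R v * x ∈ ⋀[R]^(n + 1) M := by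
  show _ ∈ (LinearMap.range (ι R : M →ₗ[R] _)) ^ (n + 1)
  rw [pow_succ']
  exact Submodule.mul_mem_mul (LinearMap.mem_range_self _ v) hx

theorem ct_mem (ψ : Module.Dual R M) (n : ℕ) : ∀ x : ExteriorAlgebra R M,
    x ∈ ⋀[R]^(n + 1) M → ct ψ x ∈ ⋀[R]^n M := by
  have h0 : ∀ (n : ℕ) (P : Submodule R (ExteriorAlgebra R M)),
      (∀ v : M, ∀ y ∈ ⋀[R]^n M, ι R v * y ∈ P) → ⋀[R]^(n + 1) M ≤ P := by
    intro n P h
    show (LinearMap.range (ι R : M →ₗ[R] _)) ^ (n + 1) ≤ P
    rw [pow_succ', Submodule.mul_le]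
    rintro _ ⟨v, rfl⟩ y hy
    exact h v y hy
  induction n with
  | zero =>
    intro x hx
    have h1 := h0 0 ((⋀[R]^0 M).comap (ct ψ)) ?_ hx
    · exact h1
    · intro v y hy
      rw [Submodule.mem_comap]
      have hy' : y ∈ (1 : Submodule R (ExteriorAlgebra R M)) := by
        have : (LinearMap.range (ι R : M →ₗ[R] _)) ^ 0 = (1 : Submodule R (ExteriorAlgebra R M)) :=
          pow_zero _
        rw [← this]; exact hy
      obtain ⟨c, rfl⟩ := Submodule.mem_one.1 hy'
      rw [ct_mul, ct_algebraMap, mul_zero, sub_zero]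
      exact Submodule.smul_mem _ _ hy
  | succ n ih =>
    intro x hx
    have h1 := h0 (n + 1) ((⋀[R]^(n + 1) M).comap (ct ψ)) ?_ hx
    · exact h1
    · intro v y hy
      rw [Submodule.mem_comap, ct_mul]
      exact Submodule.sub_mem _ (Submodule.smul_mem _ _ hy) (mul_mem v (ih y hy))

/-- iterated contraction, `φ 0` first -/
noncomputable def Jn (φ : ℕ → Module.Dual R M) : ℕ → ExteriorAlgebra R M →ₗ[R] ExteriorAlgebra R M
  | 0 => LinearMap.id
  | s + 1 => ct (φ s) ∘ₗ Jn φ s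

theorem Jn_zero (φ : ℕ → Module.Dual R M) (x : ExteriorAlgebra R M) : Jn φ 0 x = x := rfl

theorem Jn_succ (φ : ℕ → Module.Dual R M) (s : ℕ) (x : ExteriorAlgebra R M) :
    Jn φ (s + 1) x = ct (φ s) (Jn φ s x) := rfl

theorem Jn_succ' (φ : ℕ → Module.Dual R M) (s : ℕ) (x : ExteriorAlgebra R M) :
    Jn φ (s + 1) x = Jn (fun i => φ (i + 1)) s (ct (φ 0) x) := by
  induction s with
  | zero => rfl
  | succ s ih => rw [Jn_succ, ih, Jn_succ]

theorem Jn_ct (φ : ℕ → Module.Dual R M) (s : ℕ) (ψ : Module.Dual R M) (x : ExteriorAlgebra R M) :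
    ct ψ (Jn φ s x) = (-1 : R) ^ s • Jn φ s (ct ψ x) := by
  induction s with
  | zero => rw [Jn_zero, Jn_zero, pow_zero, one_smul]
  | succ s ih =>
    rw [Jn_succ, ct_comm, ih, map_smul, Jn_succ, pow_succ, mul_neg_one, neg_smul]

theorem ct_Jn_self (φ : ℕ → Module.Dual R M) (s : ℕ) (x : ExteriorAlgebra R M) (i : ℕ)
    (hi : i < s) : ct (φ i) (Jn φ s x) = 0 := by
  induction s with
  | zero => omega
  | succ s ih =>
    rw [Jn_succ]
    rcases Nat.lt_succ_iff_lt_or_eq.1 hi with h | rfl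
    · rw [ct_comm, ih h, map_zero, neg_zero]
    · exact ct_ct _ _

theorem Jn_ct_self (φ : ℕ → Module.Dual R M) (s : ℕ) (x : ExteriorAlgebra R M) (i : ℕ)
    (hi : i < s) : Jn φ s (ct (φ i) x) = 0 := by
  have h1 := Jn_ct φ s (φ i) x
  rw [ct_Jn_self φ s x i hi] at h1
  have h2 : (-1 : R) ^ s • ((-1 : R) ^ s • Jn φ s (ct (φ i) x)) = Jn φ s (ct (φ i) x) := by
    rw [smul_smul, ← mul_pow, neg_one_mul, neg_neg, one_pow, one_smul]
  rw [← h2, ← h1, smul_zero]

theorem Jn_mem (φ : ℕ → Module.Dual R M) (s n : ℕ) (x : ExteriorAlgebra R M)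
    (hx : x ∈ ⋀[R]^(s + n) M) : Jn φ s x ∈ ⋀[R]^n M := by
  induction s generalizing n with
  | zero => rw [Nat.zero_add] at hx; exact hx
  | succ s ih =>
    rw [Jn_succ]
    refine ct_mem _ n _ (ih (n + 1) ?_)
    rw [show s + 1 + n = s + (n + 1) by omega] at hx
    exact hx

theorem ct_ιMulti (ψ : Module.Dual R M) : ∀ (n : ℕ) (m : Fin (n + 1) → M),
    ct ψ (ιMulti R (n + 1) m)
      = ∑ k : Fin (n + 1), ((-1 : R) ^ (k : ℕ) * ψ (m k)) • ιMulti R n (fun j => m (k.succAbove j))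
  | 0, m => by
    rw [ιMulti_succ_apply, ct_mul, ιMulti_zero_apply, ct_one, mul_zero, sub_zero,
      Fin.sum_univ_succ, Finset.univ_eq_empty, Finset.sum_empty, add_zero, ιMulti_zero_apply]
    simp
  | n + 1, m => by
    rw [ιMulti_succ_apply, ct_mul, ct_ιMulti ψ n]
    conv_rhs => rw [Fin.sum_univ_succ]
    have h1 : (Matrix.vecTail m : Fin (n + 1) → M) = fun j => m (Fin.succAbove 0 j) := by
      funext j
      simp [Matrix.vecTail]
    rw [sub_eq_add_neg]
    congr 1
    · rw [Fin.val_zero, pow_zero, one_mul, ← h1]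
    · rw [Finset.mul_sum, ← Finset.sum_neg_distrib]
      refine Finset.sum_congr rfl fun k _ => ?_
      rw [mul_smul_comm, ← neg_smul, Fin.val_succ, pow_succ, ιMulti_succ_apply]
      have h2 : m (Fin.succAbove k.succ 0) = m 0 := by rw [Fin.succ_succAbove_zero]
      have h3 : (Matrix.vecTail fun j => m (Fin.succAbove k.succ j))
          = fun j => (Matrix.vecTail m) (Fin.succAbove k j) := by
        funext j
        show m (Fin.succAbove k.succ j.succ) = m (Fin.succ (Fin.succAbove k j))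
        rw [Fin.succ_succAbove_succ]
      rw [h3, h2]
      congr 1
      show -((-1 : R) ^ (k : ℕ) * ψ (m k.succ)) = _
      ring

theorem Jn_ιMulti : ∀ (n : ℕ) (φ : ℕ → Module.Dual R M) (m : Fin n → M),
    Jn φ n (ιMulti R n m) = algebraMap R _ (Matrix.of fun i j : Fin n => φ i (m j)).det
  | 0, φ, m => by
    rw [ιMulti_zero_apply, Matrix.det_isEmpty, (algebraMap R (ExteriorAlgebra R M)).map_one]; rfl
  | n + 1, φ, m => by
    rw [Jn_succ', ct_ιMulti, map_sum, Matrix.det_succ_row_zero, map_sum]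
    refine Finset.sum_congr rfl fun k _ => ?_
    rw [map_smul, Jn_ιMulti n, Algebra.smul_def, ← (algebraMap R (ExteriorAlgebra R M)).map_mul]
    rfl

end ext

end Pool.Agent.Helper32_OMP.H3
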