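import Pool.Agent.Helper3_OMP.BrOps

/-!
# BRGH, part 3: the homotopy
-/

set_option autoImplicit false
set_option linter.all false

namespace Pool.Agent.Helper32_OMP.H3

open ExteriorAlgebra

section hom

variable {R : Type} [CommRing R] {M : Type} [AddCommGroup M] [Module R M]
  (φ : ℕ → Module.Dual R M) (u : ℕ → M) (r : ℕ)

/-- the differential -/
noncomputable def Dop : ((Fin r → ℕ) → ExteriorAlgebra R M) →ₗ[R] ((Fin r → ℕ) → ExteriorAlgebra R M) where
  toFun w α := ∑ i : Fin r, ct (φ i) (w (α + Pi.single i 1))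
  map_add' w w' := by
    funext α
    simp only [Pi.add_apply, map_add, Finset.sum_add_distrib]
  map_smul' c w := by
    funext α
    simp only [Pi.smul_apply, map_smul, Finset.smul_sum, RingHom.id_apply]

theorem Dop_apply (w : (Fin r → ℕ) → ExteriorAlgebra R M) (α : Fin r → ℕ) :
    Dop φ r w α = ∑ i : Fin r, ct (φ i) (w (α + Pi.single i 1)) := rfl

/-- the homotopy -/
noncomputable def Sop (w : (Fin r → ℕ) → ExteriorAlgebra R M) : (Fin r → ℕ) → ExteriorAlgebra R M :=
  fun α => ∑ i : Fin r, (α i) • (ι R (u i) * w (α - Pi.single i 1))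

theorem Sop_apply (w : (Fin r → ℕ) → ExteriorAlgebra R M) (α : Fin r → ℕ) :
    Sop (R := R) u r w α = ∑ i : Fin r, (α i) • (ι R (u i) * w (α - Pi.single i 1)) := rfl

/-- the chains -/
noncomputable def Kq (R M : Type) [CommRing R] [AddCommGroup M] [Module R M] (r i : ℕ) :
    Submodule R ((Fin r → ℕ) → ExteriorAlgebra R M) where
  carrier := {w | (∀ α, w α ∈ ⋀[R]^(r + i + 1) M) ∧ ∀ α, ∑ j, α j ≠ i → w α = 0}
  zero_mem' := ⟨fun α => Submodule.zero_mem _, fun α _ => rfl⟩
  add_mem' := by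
    rintro w w' ⟨h1, h2⟩ ⟨h3, h4⟩
    refine ⟨fun α => Submodule.add_mem _ (h1 α) (h3 α), fun α hα => ?_⟩
    rw [Pi.add_apply, h2 α hα, h4 α hα, add_zero]
  smul_mem' := by
    rintro c w ⟨h1, h2⟩
    refine ⟨fun α => Submodule.smul_mem _ _ (h1 α), fun α hα => ?_⟩
    rw [Pi.smul_apply, h2 α hα, smul_zero]

theorem mem_Kq {r i : ℕ} {w : (Fin r → ℕ) → ExteriorAlgebra R M} : w ∈ Kq R M r i ↔
    (∀ α, w α ∈ ⋀[R]^(r + i + 1) M) ∧ ∀ α, ∑ j, α j ≠ i → w α = 0 := Iff.rfl

theorem sum_single (α : Fin r → ℕ) (i : Fin r) :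
    ∑ j, (α + Pi.single i 1 : Fin r → ℕ) j = ∑ j, α j + 1 := by
  simp only [Pi.add_apply, Finset.sum_add_distrib]
  congr 1
  rw [Finset.sum_pi_single']
  simp

theorem sub_add_single (α : Fin r → ℕ) (i : Fin r) (h : α i ≠ 0) :
    (α - Pi.single i 1 + Pi.single i 1 : Fin r → ℕ) = α := by
  funext j
  simp only [Pi.add_apply, Pi.sub_apply]
  by_cases hj : j = i
  · subst hj
    rw [Pi.single_eq_same]
    omega
  · rw [Pi.single_eq_of_ne hj]
    omega

theorem Dop_mem {i : ℕ} {w : (Fin r → ℕ) → ExteriorAlgebra R M} (hw : w ∈ Kq R M r (i + 1)) :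
    Dop φ r w ∈ Kq R M r i := by
  refine ⟨fun α => ?_, fun α hα => ?_⟩
  · rw [Dop_apply]
    exact Submodule.sum_mem _ fun j _ => ct_mem _ _ _ (hw.1 _)
  · rw [Dop_apply]
    refine Finset.sum_eq_zero fun j _ => ?_
    rw [hw.2 _ (by rw [sum_single]; omega), map_zero]

theorem Sop_mem {i : ℕ} {w : (Fin r → ℕ) → ExteriorAlgebra R M} (hw : w ∈ Kq R M r i) :
    Sop (R := R) u r w ∈ Kq R M r (i + 1) := by
  refine ⟨fun α => ?_, fun α hα => ?_⟩
  · rw [Sop_apply]
    exact Submodule.sum_mem _ fun j _ => Submodule.smul_of_tower_mem _ _ (mul_mem _ (hw.1 _))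
  · rw [Sop_apply]
    refine Finset.sum_eq_zero fun j _ => ?_
    by_cases h : α j = 0
    · rw [h, zero_smul]
    · rw [hw.2 _ ?_, mul_zero, smul_zero]
      intro h1
      apply hα
      rw [← sub_add_single r α j h, sum_single, h1]

theorem Dop_Dop [Algebra ℚ R] (w : (Fin r → ℕ) → ExteriorAlgebra R M) :
    Dop φ r (Dop φ r w) = 0 := by
  funext α
  have h1 : Dop φ r (Dop φ r w) α
      = ∑ i : Fin r, ∑ j : Fin r, ct (φ i) (ct (φ j) (w (α + Pi.single i 1 + Pi.single j 1))) := by
    rw [Dop_apply]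
    refine Finset.sum_congr rfl fun i _ => ?_
    rw [Dop_apply, map_sum]
  have h2 : Dop φ r (Dop φ r w) α = -Dop φ r (Dop φ r w) α := by
    rw [h1]
    conv_lhs => rw [Finset.sum_comm]
    rw [← Finset.sum_neg_distrib]
    refine Finset.sum_congr rfl fun i _ => ?_
    rw [← Finset.sum_neg_distrib]
    refine Finset.sum_congr rfl fun j _ => ?_
    rw [ct_comm, add_right_comm]
  have h3 : (2 : R) • Dop φ r (Dop φ r w) α = 0 := by
    rw [two_smul]
    nth_rewrite 1 [h2]
    rw [neg_add_cancel]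
  have h4 : (algebraMap ℚ R (1 / 2)) * (2 : R) = 1 := by
    have : (2 : R) = algebraMap ℚ R 2 := by rw [map_ofNat]
    rw [this, ← map_mul]
    norm_num
  rw [Pi.zero_apply, ← one_smul R (Dop φ r (Dop φ r w) α), ← h4, mul_smul, h3, smul_zero]

variable {φ u} {r} {D : R} (h : ∀ i < r, ∀ l < r, φ i (u l) = if i = l then D else 0)

include h in
theorem homotopy (w : (Fin r → ℕ) → ExteriorAlgebra R M) (α : Fin r → ℕ) :
    Dop φ r (Sop (R := R) u r w) α + Sop (R := R) u r (Dop φ r w) α
      = (((∑ i, α i + r : ℕ) : R) * D) • w α - Pop φ u r (w α) := by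
  have e1 : Dop φ r (Sop (R := R) u r w) α = ∑ i : Fin r, ∑ j : Fin r,
      ((α + Pi.single i 1 : Fin r → ℕ) j) •
        ct (φ i) (ι R (u j) * w (α + Pi.single i 1 - Pi.single j 1)) := by
    rw [Dop_apply]
    refine Finset.sum_congr rfl fun i _ => ?_
    rw [Sop_apply, map_sum]
    refine Finset.sum_congr rfl fun j _ => ?_
    rw [map_nsmul]
  have e2 : Sop (R := R) u r (Dop φ r w) α = ∑ i : Fin r, ∑ j : Fin r,
      (α j) • (ι R (u j) * ct (φ i) (w (α - Pi.single j 1 + Pi.single i 1))) := by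
    rw [Sop_apply, Finset.sum_comm]
    refine Finset.sum_congr rfl fun j _ => ?_
    rw [Dop_apply, Finset.mul_sum, Finset.smul_sum]
  have e3 : ∀ i j : Fin r, ((α + Pi.single i 1 : Fin r → ℕ) j) •
        ct (φ i) (ι R (u j) * w (α + Pi.single i 1 - Pi.single j 1))
        + (α j) • (ι R (u j) * ct (φ i) (w (α - Pi.single j 1 + Pi.single i 1)))
      = if i = j then (((α i + 1 : ℕ) : R) * D) • w α - ι R (u i) * ct (φ i) (w α) else 0 := by
    intro i j
    by_cases hij : i = j
    · subst hij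
      rw [if_pos rfl, add_tsub_cancel_right, Pi.add_apply, Pi.single_eq_same]
      have h1 : (α i) • (ι R (u i) * ct (φ i) (w (α - Pi.single i 1 + Pi.single i 1)))
          = (α i) • (ι R (u i) * ct (φ i) (w α)) := by
        by_cases h0 : α i = 0
        · rw [h0, zero_smul, zero_smul]
        · rw [sub_add_single r α i h0]
      rw [h1, ct_mul, h i i.2 i i.2, if_pos rfl, mul_smul, Nat.cast_smul_eq_nsmul, add_smul,
        one_smul, smul_sub, add_smul, one_smul]
      abel
    · rw [if_neg hij, Pi.add_apply, Pi.single_eq_of_ne (Ne.symm hij), add_zero]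
      by_cases h0 : α j = 0
      · rw [h0, zero_smul, zero_smul, add_zero]
      · have h1 : (α + Pi.single i 1 - Pi.single j 1 : Fin r → ℕ) = α - Pi.single j 1 + Pi.single i 1 := by
          funext k
          simp only [Pi.add_apply, Pi.sub_apply]
          by_cases hk : k = j
          · subst hk
            rw [Pi.single_eq_same, Pi.single_eq_of_ne (Ne.symm hij)]
            omega
          · rw [Pi.single_eq_of_ne hk]
            omega
        rw [h1, ← smul_add, ct_ι_mul_add, h i i.2 j j.2, if_neg (fun h => hij (Fin.ext h)),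
          zero_smul, smul_zero]
  rw [e1, e2, ← Finset.sum_add_distrib]
  have e4 : ∀ i : Fin r, ((∑ j : Fin r, ((α + Pi.single i 1 : Fin r → ℕ) j) •
        ct (φ i) (ι R (u j) * w (α + Pi.single i 1 - Pi.single j 1)))
        + ∑ j : Fin r, (α j) • (ι R (u j) * ct (φ i) (w (α - Pi.single j 1 + Pi.single i 1))))
      = (((α i + 1 : ℕ) : R) * D) • w α - ι R (u i) * ct (φ i) (w α) := by
    intro i
    rw [← Finset.sum_add_distrib, Finset.sum_congr rfl fun j _ => e3 i j, Finset.sum_ite_eq,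
      if_pos (Finset.mem_univ _)]
  rw [Finset.sum_congr rfl fun i _ => e4 i, Finset.sum_sub_distrib, ← Finset.sum_smul,
    ← Finset.sum_mul, Pop_apply, Finset.sum_range]
  congr 3
  push_cast
  rw [Finset.sum_add_distrib]
  simp

include h in
theorem ct_Pop (j : ℕ) (hj : j < r) (x : ExteriorAlgebra R M) :
    ct (φ j) (Pop φ u r x) = D • ct (φ j) x + Pop φ u r (ct (φ j) x) := by
  rw [Pop_apply, map_sum, Pop_apply]
  have h1 : ∀ i ∈ Finset.range r, ct (φ j) (ι R (u i) * ct (φ i) x)
      = (if j = i then D • ct (φ i) x else 0) + ι R (u i) * ct (φ i) (ct (φ j) x) := by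
    intro i hi
    rw [ct_mul, h j hj i (Finset.mem_range.1 hi), ct_comm (φ j) (φ i), mul_neg, sub_neg_eq_add]
    congr 1
    split_ifs
    · rfl
    · rw [zero_smul]
  rw [Finset.sum_congr rfl h1, Finset.sum_add_distrib, Finset.sum_ite_eq,
    if_pos (Finset.mem_range.2 hj)]

theorem Pop_mem (n : ℕ) {x : ExteriorAlgebra R M} (hx : x ∈ ⋀[R]^(n + 1) M) :
    Pop φ u r x ∈ ⋀[R]^(n + 1) M := by
  rw [Pop_apply]
  exact Submodule.sum_mem _ fun j _ => mul_mem _ (ct_mem _ _ _ hx)

include h in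
theorem iter (i : ℕ) (x : (Fin r → ℕ) → ExteriorAlgebra R M) (hx : x ∈ Kq R M r i)
    (hx' : Dop φ r x = 0) (s : ℕ) (hs : s ≤ i + r) :
    (fun α => FF (dl D) s (Pop φ u r) (x α)) ∈ Kq R M r i ∧
    Dop φ r (fun α => FF (dl D) s (Pop φ u r) (x α)) = 0 ∧
    ∃ y ∈ Kq R M r (i + 1), ∀ α, FF (dl D) s (Pop φ u r) (x α)
      = (((i + r).descFactorial s : R) * D ^ s) • x α + Dop φ r y α := by
  induction s with
  | zero =>
    refine ⟨hx, hx', 0, Submodule.zero_mem _, fun α => ?_⟩
    rw [map_zero, Nat.descFactorial_zero, pow_zero, Nat.cast_one, one_mul, one_smul]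
    show x α = x α + 0
    rw [add_zero]
  | succ s ih =>
    obtain ⟨h1, h2, y, hy, h3⟩ := ih (by omega)
    set z : (Fin r → ℕ) → ExteriorAlgebra R M := fun α => FF (dl D) s (Pop φ u r) (x α) with hz
    have h4 : ∀ α, FF (dl D) (s + 1) (Pop φ u r) (x α) = Pop φ u r (z α) - ((s : R) * D) • z α := by
      intro α
      rw [FF_succ, Module.End.mul_apply, LinearMap.sub_apply, LinearMap.smul_apply, dl_apply,
        mul_smul, Nat.cast_smul_eq_nsmul]
    have h5 : ∀ α, Pop φ u r (z α) = (((i + r : ℕ) : R) * D) • z α - Dop φ r (Sop (R := R) u r z) α := by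
      intro α
      have h6 := homotopy h z α
      rw [h2] at h6
      have h7 : Sop (R := R) u r (0 : (Fin r → ℕ) → ExteriorAlgebra R M) α = 0 := by
        rw [Sop_apply]
        refine Finset.sum_eq_zero fun j _ => ?_
        rw [Pi.zero_apply, mul_zero, smul_zero]
      rw [h7, add_zero] at h6
      have h8 : (((∑ i, α i + r : ℕ) : R) * D) • z α = (((i + r : ℕ) : R) * D) • z α := by
        by_cases hα : ∑ j, α j = i
        · rw [hα]
        · rw [h1.2 α hα, smul_zero, smul_zero]
      rw [h6, h8]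
      abel
    have h9 : ∀ α, FF (dl D) (s + 1) (Pop φ u r) (x α)
        = (((i + r).descFactorial (s + 1) : R) * D ^ (s + 1)) • x α
          + Dop φ r ((((i + r - s : ℕ) : R) * D) • y - Sop (R := R) u r z) α := by
      intro α
      rw [h4, h5]
      have h10 : (((i + r - s : ℕ) : R) * D) = ((i + r : ℕ) : R) * D - (s : R) * D := by
        rw [Nat.cast_sub (by omega), sub_mul]
      have h11 : (((i + r : ℕ) : R) * D) • z α - Dop φ r (Sop (R := R) u r z) α - ((s : R) * D) • z α
          = (((i + r - s : ℕ) : R) * D) • z α - Dop φ r (Sop (R := R) u r z) α := by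
        rw [h10, sub_smul]
        abel
      rw [h11, map_sub, map_smul]
      show _ = _ + ((((i + r - s : ℕ) : R) * D) • Dop φ r y α - Dop φ r (Sop (R := R) u r z) α)
      have h12 : z α = (((i + r).descFactorial s : R) * D ^ s) • x α + Dop φ r y α := h3 α
      rw [h12, smul_add, smul_smul, Nat.descFactorial_succ, pow_succ]
      have h13 : ((i + r - s : ℕ) : R) * D * (((i + r).descFactorial s : ℕ) * D ^ s)
          = (((i + r - s) * (i + r).descFactorial s : ℕ) : R) * (D ^ s * D) := by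
        push_cast
        ring
      rw [h13]
      abel
    refine ⟨?_, ?_, _, ?_, h9⟩
    · refine ⟨fun α => ?_, fun α hα => ?_⟩
      · show FF (dl D) (s + 1) (Pop φ u r) (x α) ∈ _
        rw [h4]
        exact Submodule.sub_mem _ (Pop_mem _ (h1.1 α)) (Submodule.smul_mem _ _ (h1.1 α))
      · show FF (dl D) (s + 1) (Pop φ u r) (x α) = _
        rw [hx.2 α hα, map_zero]
    · funext α
      rw [Dop_apply]
      have h14 : ∀ j : Fin r, ct (φ j) (FF (dl D) (s + 1) (Pop φ u r) (x (α + Pi.single j 1)))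
          = D • ct (φ j) (z (α + Pi.single j 1)) + Pop φ u r (ct (φ j) (z (α + Pi.single j 1)))
            - ((s : R) * D) • ct (φ j) (z (α + Pi.single j 1)) := by
        intro j
        rw [h4, map_sub, ct_Pop h j j.2, map_smul]
      rw [Finset.sum_congr rfl fun j _ => h14 j, Finset.sum_sub_distrib, Finset.sum_add_distrib,
        ← Finset.smul_sum, ← Finset.smul_sum, ← map_sum, ← Dop_apply, h2, Pi.zero_apply, smul_zero,
        smul_zero, map_zero, add_zero, sub_zero]
    · exact Submodule.sub_mem _ (Submodule.smul_mem _ _ hy) (Sop_mem u r h1)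

include h in
theorem kill [Algebra ℚ R] (i : ℕ) (x : (Fin r → ℕ) → ExteriorAlgebra R M) (hx : x ∈ Kq R M r i)
    (hx' : Dop φ r x = 0) (s : ℕ) (hs : s ≤ i + r)
    (h0 : ∀ α, FF (dl D) s (Pop φ u r) (x α) = 0) :
    ∃ y ∈ Kq R M r (i + 1), D ^ s • x = Dop φ r y := by
  obtain ⟨-, -, y, hy, h1⟩ := iter h i x hx hx' s hs
  have hk : ((i + r).descFactorial s : ℚ) ≠ 0 := by
    have := Nat.descFactorial_pos.2 hs
    exact_mod_cast this.ne'
  set c : R := algebraMap ℚ R (1 / ((i + r).descFactorial s : ℚ)) with hc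
  have h2 : c * ((i + r).descFactorial s : R) = 1 := by
    have : ((i + r).descFactorial s : R) = algebraMap ℚ R ((i + r).descFactorial s : ℚ) := by
      rw [map_natCast]
    rw [hc, this, ← map_mul, one_div, inv_mul_cancel₀ hk, map_one]
  refine ⟨-(c • y), Submodule.neg_mem _ (Submodule.smul_mem _ _ hy), ?_⟩
  funext α
  rw [map_neg, map_smul]
  show D ^ s • x α = -(c • Dop φ r y α)
  have h3 := h1 α
  rw [h0 α] at h3
  have h4 : Dop φ r y α = -((((i + r).descFactorial s : R) * D ^ s) • x α) := by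
    rw [eq_neg_iff_add_eq_zero, add_comm]
    exact h3.symm
  rw [h4, smul_neg, neg_neg, smul_smul, ← mul_assoc, h2, one_mul]

end hom

end Pool.Agent.Helper32_OMP.H3
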