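import Pool.Agent.Helper3_OMP.BrExt

/-!
# BRGH, part 2: operators
-/

set_option autoImplicit false
set_option linter.all false

namespace Pool.Agent.Helper32_OMP.H3

open ExteriorAlgebra

section FF

variable {𝔄 : Type} [Ring 𝔄]

/-- the product of the `X - j δ` -/
def FF (δ : 𝔄) : ℕ → 𝔄 → 𝔄
  | 0, _ => 1
  | s + 1, X => (X - s • δ) * FF δ s X

theorem FF_add (δ N P : 𝔄) (hN : N * N = δ * N) (hNP : P * N = N * P) (hδ : δ * N = N * δ)
    (s : ℕ) : FF δ (s + 1) (N + P) = FF δ (s + 1) P + (s + 1) • (N * FF δ s P) := by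
  induction s with
  | zero =>
    show (N + P - 0 • δ) * 1 = (P - 0 • δ) * 1 + (0 + 1) • (N * 1)
    rw [zero_smul, sub_zero, sub_zero, mul_one, mul_one, mul_one, zero_add, one_smul, add_comm]
  | succ s ih =>
    have h1 : (N + P - (s + 1) • δ) * N = N * (P - s • δ) := by
      rw [sub_mul, add_mul, hN, hNP, smul_mul_assoc, hδ, mul_sub, mul_smul_comm, add_smul, one_smul]
      abel
    have h2 : FF δ (s + 1 + 1) (N + P) = (N + P - (s + 1) • δ) * FF δ (s + 1) (N + P) := rfl
    have h3 : FF δ (s + 1 + 1) P = (P - (s + 1) • δ) * FF δ (s + 1) P := rfl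
    have h4 : FF δ (s + 1) P = (P - s • δ) * FF δ s P := rfl
    have h5 : (N + P - (s + 1) • δ) = N + (P - (s + 1) • δ) := by abel
    rw [h2, ih, mul_add, mul_smul_comm, ← mul_assoc _ N, h1, mul_assoc N, ← h4, h3,
      add_smul (s + 1) 1, one_smul, h5, add_mul]
    abel

theorem FF_zero (δ X : 𝔄) : FF δ 0 X = 1 := rfl

theorem FF_succ (δ X : 𝔄) (s : ℕ) : FF δ (s + 1) X = (X - s • δ) * FF δ s X := rfl

end FF

section ops

variable {R : Type} [CommRing R] {M : Type} [AddCommGroup M] [Module R M]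
  (φ : ℕ → Module.Dual R M) (u : ℕ → M)

/-- the operator `u ∧ φ ⌋` -/
noncomputable def Nop (i : ℕ) : Module.End R (ExteriorAlgebra R M) :=
  LinearMap.mulLeft R (ι R (u i)) ∘ₗ ct (φ i)

theorem Nop_apply (i : ℕ) (x : ExteriorAlgebra R M) : Nop φ u i x = ι R (u i) * ct (φ i) x := rfl

/-- the sum of these operators -/
noncomputable def Pop (s : ℕ) : Module.End R (ExteriorAlgebra R M) :=
  ∑ i ∈ Finset.range s, Nop φ u i

theorem Pop_apply (s : ℕ) (x : ExteriorAlgebra R M) :
    Pop φ u s x = ∑ i ∈ Finset.range s, ι R (u i) * ct (φ i) x := by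
  rw [Pop, LinearMap.sum_apply]; rfl

/-- the wedge product with the `u i` -/
noncomputable def Vop : ℕ → ExteriorAlgebra R M →ₗ[R] ExteriorAlgebra R M
  | 0 => LinearMap.id
  | s + 1 => LinearMap.mulLeft R (ι R (u s)) ∘ₗ Vop s

theorem Vop_zero (x : ExteriorAlgebra R M) : Vop (R := R) u 0 x = x := rfl

theorem Vop_succ (s : ℕ) (x : ExteriorAlgebra R M) :
    Vop (R := R) u (s + 1) x = ι R (u s) * Vop (R := R) u s x := rfl

theorem Vop_mem (s n : ℕ) (x : ExteriorAlgebra R M) (hx : x ∈ ⋀[R]^n M) :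
    Vop (R := R) u s x ∈ ⋀[R]^(s + n) M := by
  induction s with
  | zero => rw [Nat.zero_add]; exact hx
  | succ s ih =>
    rw [Vop_succ, show s + 1 + n = (s + n) + 1 by omega]
    exact mul_mem _ ih

variable {φ u} {D : R} {r : ℕ} (h : ∀ i < r, ∀ l < r, φ i (u l) = if i = l then D else 0)

/-- the scalar operator -/
noncomputable def dl (D : R) : Module.End R (ExteriorAlgebra R M) := D • 1

theorem dl_apply (D : R) (x : ExteriorAlgebra R M) : dl (M := M) D x = D • x := rfl

theorem ι_sq (v : M) (x : ExteriorAlgebra R M) : ι R v * (ι R v * x) = 0 := by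
  rw [← mul_assoc, ExteriorAlgebra.ι_sq_zero, zero_mul]

include h in
theorem Nop_sq (i : ℕ) (hi : i < r) : Nop φ u i * Nop φ u i = dl D * Nop φ u i := by
  refine LinearMap.ext fun x => ?_
  show ι R (u i) * ct (φ i) (ι R (u i) * ct (φ i) x) = D • (ι R (u i) * ct (φ i) x)
  rw [ct_mul, ct_ct, mul_zero, sub_zero, h i hi i hi, if_pos rfl, mul_smul_comm]

include h in
theorem Nop_comm (i l : ℕ) (hi : i < r) (hl : l < r) (hil : i ≠ l) :
    Nop φ u i * Nop φ u l = Nop φ u l * Nop φ u i := by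
  refine LinearMap.ext fun x => ?_
  show ι R (u i) * ct (φ i) (ι R (u l) * ct (φ l) x) = ι R (u l) * ct (φ l) (ι R (u i) * ct (φ i) x)
  rw [ct_mul, ct_mul, h i hi l hl, h l hl i hi, if_neg hil, if_neg hil.symm, zero_smul, zero_smul,
    zero_sub, zero_sub, mul_neg, mul_neg, ← mul_assoc, ← mul_assoc, ι_mul_ι (u i) (u l),
    ct_comm (φ i) (φ l)]
  simp

theorem dl_comm (X : Module.End R (ExteriorAlgebra R M)) : dl D * X = X * dl D := by
  refine LinearMap.ext fun x => ?_
  show D • X x = X (D • x)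
  rw [map_smul]

include h in
theorem Pop_comm (s : ℕ) (hs : s < r) : Pop φ u s * Nop φ u s = Nop φ u s * Pop φ u s := by
  rw [Pop, Finset.sum_mul, Finset.mul_sum]
  refine Finset.sum_congr rfl fun i hi => ?_
  have hi' := Finset.mem_range.1 hi
  exact Nop_comm h i s (by omega) hs (by omega)

theorem Pop_succ (s : ℕ) : Pop φ u (s + 1) = Nop φ u s + Pop φ u s := by
  rw [Pop, Finset.sum_range_succ, add_comm, ← Pop]

include h in
theorem FF_Pop (s : ℕ) (hs : s ≤ r) : FF (dl D) (s + 1) (Pop φ u s) = 0 := by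
  induction s with
  | zero =>
    rw [FF_succ, Pop, Finset.range_zero, Finset.sum_empty, zero_smul, sub_zero, zero_mul]
  | succ s ih =>
    rw [Pop_succ, FF_add _ _ _ (Nop_sq h s (by omega)) (Pop_comm h s (by omega)) (dl_comm _),
      FF_succ, ih (by omega), mul_zero, mul_zero, smul_zero, add_zero]

theorem ct_Vop (ψ : Module.Dual R M) (s : ℕ) (hψ : ∀ l < s, ψ (u l) = 0)
    (x : ExteriorAlgebra R M) :
    ct ψ (Vop (R := R) u s x) = (-1 : R) ^ s • Vop (R := R) u s (ct ψ x) := by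
  induction s with
  | zero => rw [pow_zero, one_smul]; rfl
  | succ s ih =>
    rw [Vop_succ, ct_mul, hψ s (by omega), zero_smul, zero_sub, ih fun l hl => hψ l (by omega),
      mul_smul_comm, Vop_succ, pow_succ, mul_neg_one, neg_smul]

include h in
theorem FF_Pop_eq (s : ℕ) (hs : s ≤ r) : ∃ c : R, ∀ x : ExteriorAlgebra R M,
    FF (dl D) s (Pop φ u s) x = c • Vop (R := R) u s (Jn φ s x) := by
  induction s with
  | zero => exact ⟨1, fun x => by rw [one_smul]; rfl⟩
  | succ s ih =>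
    obtain ⟨c, hc⟩ := ih (by omega)
    refine ⟨(s + 1) * (c * (-1) ^ s), fun x => ?_⟩
    rw [Pop_succ, FF_add _ _ _ (Nop_sq h s (by omega)) (Pop_comm h s (by omega)) (dl_comm _),
      FF_Pop h s (by omega), zero_add, LinearMap.smul_apply, Module.End.mul_apply, hc, map_smul,
      Nop_apply, ct_Vop (φ s) s (fun l hl => by rw [h s (by omega) l (by omega), if_neg (by omega)]),
      mul_smul_comm, ← Jn_succ, ← Vop_succ, smul_smul, ← Nat.cast_smul_eq_nsmul R, smul_smul]
    push_cast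
    rfl

theorem Jn_mul (v : M) (s : ℕ) (hv : ∀ i < s, φ i v = 0) (x : ExteriorAlgebra R M) :
    Jn φ s (ι R v * x) = (-1 : R) ^ s • (ι R v * Jn φ s x) := by
  induction s with
  | zero => rw [pow_zero, one_smul]; rfl
  | succ s ih =>
    rw [Jn_succ, ih fun i hi => hv i (by omega), map_smul, ct_mul, hv s (by omega), zero_smul,
      zero_sub, smul_neg, Jn_succ, pow_succ, mul_neg_one, neg_smul]

include h in
theorem Jn_Vop (s : ℕ) (hs : s ≤ r) : ∃ c : R, c * c = 1 ∧ ∀ x : ExteriorAlgebra R M,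
    (∀ i < s, ct (φ i) x = 0) → Jn φ s (Vop (R := R) u s x) = (c * D ^ s) • x := by
  induction s with
  | zero => exact ⟨1, one_mul 1, fun x _ => by rw [pow_zero, one_mul, one_smul]; rfl⟩
  | succ s ih =>
    obtain ⟨c, hc, hc'⟩ := ih (by omega)
    refine ⟨(-1) ^ s * c, ?_, fun x hx => ?_⟩
    · have h1 : ((-1 : R) ^ s) * (-1) ^ s = 1 := by rw [← mul_pow, neg_one_mul, neg_neg, one_pow]
      calc (-1 : R) ^ s * c * ((-1) ^ s * c) = ((-1) ^ s * (-1) ^ s) * (c * c) := by ring
        _ = 1 := by rw [h1, hc, one_mul]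
    · rw [Vop_succ, Jn_succ, Jn_mul (u s) s (fun i hi => by
        rw [h i (by omega) s (by omega), if_neg (by omega)]), map_smul, ct_mul,
        hc' x (fun i hi => hx i (by omega)), map_smul, hx s (by omega), smul_zero, mul_zero,
        sub_zero, h s (by omega) s (by omega), if_pos rfl, smul_smul, smul_smul]
      congr 1
      ring

end ops

end Pool.Agent.Helper32_OMP.H3
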